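import Pool.Agent.MP_ca7024_gt.H42.Main

/-! The algebraic unknotting number takes all values `1, …, n` on one class of mutant knots. -/

namespace Pool.Agent.Results.MP_ca7024_gt.AlgebraicMutation

open Pool.Agent.MP_ca7024_gt.H50 Pool.Agent.MP_ca7024_gt.H42

theorem result (n : ℕ) : ∃ K : ℕ → List Gen, (∀ i ∈ Set.Icc 1 n, IsKnot (K i)) ∧
    (∀ i ∈ Set.Icc 1 n, ∀ j ∈ Set.Icc 1 n, Mutant (K i) (K j)) ∧
    ∀ i ∈ Set.Icc 1 n, ∀ p q, AlgUnknots (K i) p q ↔ i ≤ p + q :=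
  main n

end Pool.Agent.Results.MP_ca7024_gt.AlgebraicMutation
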