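import Pool.Agent.MP_ca7024_gt.H50.Final

/-! The untwisting numbers `tu_p`, `p ≥ 2`, are not invariant under Conway mutation. -/

namespace Pool.Agent.Results.MP_ca7024_gt.UntwistMutation

open Pool.Agent.MP_ca7024_gt.H50

theorem result (n : ℕ) : ∃ K K' : List Gen, IsKnot K ∧ IsKnot K' ∧ Mutant K K' ∧
    (∀ p, 2 ≤ p → IsLeast {m | Untwists p K m} n) ∧
    (∀ p, 1 ≤ p → IsLeast {m | Untwists p K' m} (2 * n)) :=
  main n

end Pool.Agent.Results.MP_ca7024_gt.UntwistMutation
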